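import Pool.Agent.H1.WP.Main

set_option autoImplicit false

namespace Pool.Agent.H1.WP

open Finset Real
open ArithmeticFunction (vonMangoldt)

theorem val_ne_zero {b : ℕ} {c : ℤ} (hb : 2 ≤ b) (hbc : IsCoprime (b : ℤ) c) {k : ℕ}
    (hk : 1 ≤ k) : (k : ℤ) * (b : ℤ) ^ k + c ≠ 0 := by
  intro h
  have hd : (b : ℤ) ∣ c := by
    have h1 : (b : ℤ) ∣ (k : ℤ) * (b : ℤ) ^ k := (dvd_pow_self _ (by omega)).mul_left _
    have h2 : c = -((k : ℤ) * (b : ℤ) ^ k) := by linarith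
    rw [h2]; exact h1.neg_right
  have hu : IsUnit (b : ℤ) := hbc.isUnit_of_dvd' dvd_rfl hd
  rw [Int.isUnit_iff] at hu
  omega

/-- the inner sum is at most the logarithm of the value -/
theorem inner_le {b : ℕ} {c : ℤ} (hb : 2 ≤ b) (hbc : IsCoprime (b : ℤ) c) {k : ℕ}
    (hk : 1 ≤ k) (Z : ℕ) :
    ∑ q ∈ (Ioc 0 Z).filter (fun q : ℕ => (q : ℤ) ∣ (k : ℤ) * (b : ℤ) ^ k + c), vonMangoldt q
      ≤ Real.log (((k : ℤ) * (b : ℤ) ^ k + c).natAbs : ℝ) := by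
  have h := sum_dvd_le Z (((k : ℤ) * (b : ℤ) ^ k + c).natAbs)
    (Int.natAbs_ne_zero.2 (val_ne_zero hb hbc hk))
  refine le_trans (le_of_eq ?_) h
  apply Finset.sum_congr _ (fun _ _ => rfl)
  apply Finset.filter_congr
  intro q _
  rw [Int.natCast_dvd]

theorem le_inner {b : ℕ} {c : ℤ} {k : ℕ} {z : ℝ}
    (hbad : ∀ q : ℕ, IsPrimePow q → (q : ℤ) ∣ (k : ℤ) * (b : ℤ) ^ k + c → (q : ℝ) ≤ z) :
    Real.log (((k : ℤ) * (b : ℤ) ^ k + c).natAbs : ℝ) ≤
    ∑ q ∈ (Ioc 0 ⌊z⌋₊).filter (fun q : ℕ => (q : ℤ) ∣ (k : ℤ) * (b : ℤ) ^ k + c),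
      vonMangoldt q := by
  rw [← ArithmeticFunction.vonMangoldt_sum, ← Finset.sum_filter_ne_zero]
  apply Finset.sum_le_sum_of_subset_of_nonneg
  · intro q hq
    rw [mem_filter, Nat.mem_divisors] at hq
    have h1 : (q : ℤ) ∣ (k : ℤ) * (b : ℤ) ^ k + c := Int.natCast_dvd.2 hq.1.1
    have h2 : IsPrimePow q := ArithmeticFunction.vonMangoldt_ne_zero_iff.1 hq.2
    rw [mem_filter, mem_Ioc]
    exact ⟨⟨h2.pos, Nat.le_floor (hbad q h2 h1)⟩, h1⟩
  · intro _ _ _; exact ArithmeticFunction.vonMangoldt_nonneg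

theorem val_lower {b : ℕ} {c : ℤ} (hb : 2 ≤ b) {k : ℕ} (hk : c.natAbs < k) :
    (k : ℝ) * Real.log 2 ≤ Real.log (((k : ℤ) * (b : ℤ) ^ k + c).natAbs : ℝ) := by
  have h1 : (b : ℤ) ^ k ≤ (k : ℤ) * (b : ℤ) ^ k + c := by
    have hb1 : (1 : ℤ) ≤ (b : ℤ) ^ k := one_le_pow₀ (by omega)
    have hc : -c ≤ (c.natAbs : ℤ) := by omega
    have hk1 : (c.natAbs : ℤ) + 1 ≤ k := by omega
    have hc0 : (0 : ℤ) ≤ c.natAbs := Int.natCast_nonneg _
    nlinarith
  have h2 : (2 : ℕ) ^ k ≤ ((k : ℤ) * (b : ℤ) ^ k + c).natAbs := by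
    have h3 : (2 : ℤ) ^ k ≤ (b : ℤ) ^ k := pow_le_pow_left₀ (by norm_num) (by omega) k
    have h4 : ((2 ^ k : ℕ) : ℤ) ≤ (k : ℤ) * (b : ℤ) ^ k + c := by push_cast; linarith
    omega
  rw [← Real.log_pow]
  apply Real.log_le_log (by positivity)
  exact_mod_cast h2

theorem val_upper {b : ℕ} {c : ℤ} (hb : 2 ≤ b) (hbc : IsCoprime (b : ℤ) c) {k X : ℕ}
    (hk : 1 ≤ k) (hkX : k ≤ X) :
    Real.log (((k : ℤ) * (b : ℤ) ^ k + c).natAbs : ℝ) ≤ (1 + c.natAbs + Real.log b) * X := by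
  have h0 := Int.natAbs_ne_zero.2 (val_ne_zero (c := c) hb hbc hk)
  have hb1 : (1 : ℝ) ≤ b := by exact_mod_cast (show 1 ≤ b by omega)
  have hX1 : (1 : ℝ) ≤ X := by exact_mod_cast (hk.trans hkX)
  have h1 : ((k : ℤ) * (b : ℤ) ^ k + c).natAbs ≤ (X + c.natAbs) * b ^ X := by
    have hbk : b ^ k ≤ b ^ X := Nat.pow_le_pow_right (by omega) hkX
    have hbX : 1 ≤ b ^ X := Nat.one_le_pow _ _ (by omega)
    calc ((k : ℤ) * (b : ℤ) ^ k + c).natAbs ≤ ((k : ℤ) * (b : ℤ) ^ k).natAbs + c.natAbs :=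
          Int.natAbs_add_le _ _
      _ = k * b ^ k + c.natAbs := by
          rw [show ((k : ℤ) * (b : ℤ) ^ k) = ((k * b ^ k : ℕ) : ℤ) by push_cast; ring,
            Int.natAbs_natCast]
      _ ≤ X * b ^ X + c.natAbs * b ^ X := by
          apply Nat.add_le_add (Nat.mul_le_mul hkX hbk)
          exact Nat.le_mul_of_pos_right _ hbX
      _ = _ := by ring
  have h2 : Real.log (((k : ℤ) * (b : ℤ) ^ k + c).natAbs : ℝ)
      ≤ Real.log (((X : ℝ) + c.natAbs) * (b : ℝ) ^ X) := by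
    apply Real.log_le_log (by exact_mod_cast Nat.pos_of_ne_zero h0)
    exact_mod_cast h1
  have hc0 : (0 : ℝ) ≤ (c.natAbs : ℝ) := Nat.cast_nonneg _
  rw [Real.log_mul (by positivity) (by positivity), Real.log_pow] at h2
  have h3 := Real.log_le_sub_one_of_pos (show (0 : ℝ) < (X : ℝ) + c.natAbs by positivity)
  nlinarith

/-- The mean bound without restriction. -/
theorem mean {b : ℕ} {c : ℤ} (hb : 2 ≤ b) (hbc : IsCoprime (b : ℤ) c) :
    ∃ C : ℝ, 0 < C ∧ ∀ (X : ℕ) (z : ℝ), 1 ≤ X → 0 ≤ z →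
    ∑ k ∈ Icc 1 X, ∑ q ∈ (Ioc 0 ⌊z⌋₊).filter
      (fun q : ℕ => (q : ℤ) ∣ (k : ℤ) * (b : ℤ) ^ k + c), vonMangoldt q
      ≤ C * X * (z ^ (1 / 3 : ℝ) + Real.log X + 1) ^ 2 := by
  obtain ⟨C, hC, h⟩ := master2 hb hbc
  have hb1 : (1 : ℝ) ≤ b := by exact_mod_cast (show 1 ≤ b by omega)
  have hlb : 0 ≤ Real.log b := Real.log_nonneg hb1
  refine ⟨C + (1 + c.natAbs + Real.log b), by positivity, ?_⟩
  intro X z hX hz
  have hX1 : (1 : ℝ) ≤ X := by exact_mod_cast hX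
  have hlX : 0 ≤ Real.log X := Real.log_nonneg hX1
  have hy0 : 0 ≤ z ^ (1 / 3 : ℝ) := Real.rpow_nonneg hz _
  set w := z ^ (1 / 3 : ℝ) + Real.log X + 1 with hw
  have hw1 : 1 ≤ w := by linarith
  by_cases hwX : w ≤ X
  · have h1 := h X z hX hz hwX
    have h2 : 0 ≤ (1 + (c.natAbs : ℝ) + Real.log b) * X * w ^ 2 := by positivity
    nlinarith
  · push Not at hwX
    have h1 : ∀ k ∈ Icc 1 X, ∑ q ∈ (Ioc 0 ⌊z⌋₊).filter
        (fun q : ℕ => (q : ℤ) ∣ (k : ℤ) * (b : ℤ) ^ k + c), vonMangoldt q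
        ≤ (1 + c.natAbs + Real.log b) * X := by
      intro k hk
      rw [mem_Icc] at hk
      exact (inner_le hb hbc hk.1 _).trans (val_upper hb hbc hk.1 hk.2)
    refine (Finset.sum_le_sum h1).trans ?_
    rw [Finset.sum_const, Nat.card_Icc, nsmul_eq_mul, Nat.add_sub_cancel]
    have h2 : (X : ℝ) ≤ w ^ 2 := by nlinarith
    have h3 : 0 ≤ C * X * w ^ 2 := by positivity
    have h4 : (X : ℝ) * ((1 + c.natAbs + Real.log b) * X)
        ≤ (X : ℝ) * ((1 + c.natAbs + Real.log b) * w ^ 2) := by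
      apply mul_le_mul_of_nonneg_left _ (by positivity)
      apply mul_le_mul_of_nonneg_left h2 (by positivity)
    nlinarith

/-- The sum of a set of positive integers. -/
theorem sum_ge_card (S : Finset ℕ) (hS : ∀ k ∈ S, 1 ≤ k) :
    #S * #S ≤ 2 * ∑ k ∈ S, k := by
  induction S using Finset.induction_on_max with
  | empty => simp
  | insert a s ha ih =>
    have has : a ∉ s := fun h => lt_irrefl _ (ha a h)
    rw [Finset.card_insert_of_notMem has, Finset.sum_insert has]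
    have h1 := ih (fun k hk => hS k (mem_insert_of_mem hk))
    have h2 : #s ≤ a - 1 := by
      have : s ⊆ Icc 1 (a - 1) := by
        intro k hk
        have := ha k hk
        have := hS k (mem_insert_of_mem hk)
        rw [mem_Icc]; omega
      have := card_le_card this
      rw [Nat.card_Icc] at this
      omega
    have h3 : 1 ≤ a := hS a (mem_insert_self _ _)
    have h4 : #s + 1 ≤ a := by omega
    nlinarith

open Classical in
/-- The number of `k` without a prime power divisor above `z`. -/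
theorem count {b : ℕ} {c : ℤ} (hb : 2 ≤ b) (hbc : IsCoprime (b : ℤ) c) :
    ∃ C : ℝ, 0 < C ∧ ∀ (X : ℕ) (z : ℝ), 1 ≤ X → 0 ≤ z →
    (#((Icc 1 X).filter (fun k : ℕ => ∀ q : ℕ, IsPrimePow q →
      (q : ℤ) ∣ (k : ℤ) * (b : ℤ) ^ k + c → (q : ℝ) ≤ z)) : ℝ)
      ≤ C * √X * (z ^ (1 / 3 : ℝ) + Real.log X + 1) := by
  obtain ⟨C, hC, h⟩ := mean hb hbc
  refine ⟨√(2 * C / Real.log 2) + c.natAbs, ?_, ?_⟩
  · have : 0 < √(2 * C / Real.log 2) := by
      apply Real.sqrt_pos.2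
      have := Real.log_pos (show (1 : ℝ) < 2 by norm_num)
      positivity
    have hc0 : (0 : ℝ) ≤ (c.natAbs : ℝ) := Nat.cast_nonneg _
    linarith
  intro X z hX hz
  have hX1 : (1 : ℝ) ≤ X := by exact_mod_cast hX
  have hlX : 0 ≤ Real.log X := Real.log_nonneg hX1
  have hy0 : 0 ≤ z ^ (1 / 3 : ℝ) := Real.rpow_nonneg hz _
  have hl2 := Real.log_pos (show (1 : ℝ) < 2 by norm_num)
  have hc0 : (0 : ℝ) ≤ (c.natAbs : ℝ) := Nat.cast_nonneg _
  set w := z ^ (1 / 3 : ℝ) + Real.log X + 1 with hw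
  have hw1 : 1 ≤ w := by linarith
  set B := (Icc 1 X).filter (fun k : ℕ => ∀ q : ℕ, IsPrimePow q →
      (q : ℤ) ∣ (k : ℤ) * (b : ℤ) ^ k + c → (q : ℝ) ≤ z) with hB
  set B' := B.filter (fun k => c.natAbs < k) with hB'
  have h1 : #B ≤ #B' + c.natAbs := by
    have hsub : B ⊆ B' ∪ Icc 1 c.natAbs := by
      intro k hk
      rw [mem_union]
      by_cases hck : c.natAbs < k
      · left; exact mem_filter.2 ⟨hk, hck⟩
      · right
        have := mem_Icc.1 (mem_filter.1 hk).1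
        exact mem_Icc.2 ⟨this.1, by omega⟩
    have := (card_le_card hsub).trans (card_union_le _ _)
    rwa [Nat.card_Icc, Nat.add_sub_cancel] at this
  have h2 : (#B' : ℝ) ^ 2 ≤ (2 * C / Real.log 2) * X * w ^ 2 := by
    have h21 := sum_ge_card B' (fun k hk =>
      (mem_Icc.1 (mem_filter.1 (mem_filter.1 hk).1).1).1)
    have h22' : ((#B' * #B' : ℕ) : ℝ) ≤ ((2 * ∑ k ∈ B', k : ℕ) : ℝ) := Nat.cast_le.2 h21
    have h22 : (#B' : ℝ) * #B' ≤ 2 * ∑ k ∈ B', (k : ℝ) := by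
      rw [Nat.cast_mul, Nat.cast_mul, Nat.cast_sum] at h22'
      exact h22'
    have h23 : ∑ k ∈ B', (k : ℝ) * Real.log 2 ≤ C * X * w ^ 2 := by
      refine le_trans ?_ (h X z hX hz)
      refine le_trans (Finset.sum_le_sum (g := fun k : ℕ => ∑ q ∈ (Ioc 0 ⌊z⌋₊).filter
        (fun q : ℕ => (q : ℤ) ∣ (k : ℤ) * (b : ℤ) ^ k + c), vonMangoldt q) ?_) ?_
      · intro k hk
        have hkB := (mem_filter.1 hk).1
        exact (val_lower hb (mem_filter.1 hk).2).trans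
          (le_inner (mem_filter.1 hkB).2)
      · apply Finset.sum_le_sum_of_subset_of_nonneg
        · exact (filter_subset _ _).trans (filter_subset _ _)
        · intro k _ _
          exact Finset.sum_nonneg (fun _ _ => ArithmeticFunction.vonMangoldt_nonneg)
    rw [← Finset.sum_mul] at h23
    have h24 : ∑ k ∈ B', (k : ℝ) ≤ C * X * w ^ 2 / Real.log 2 := by
      rw [le_div_iff₀ hl2]; exact h23
    calc (#B' : ℝ) ^ 2 = (#B' : ℝ) * #B' := by ring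
      _ ≤ 2 * ∑ k ∈ B', (k : ℝ) := h22
      _ ≤ 2 * (C * X * w ^ 2 / Real.log 2) := by linarith
      _ = _ := by ring
  have h3 : (#B' : ℝ) ≤ √(2 * C / Real.log 2) * √X * w := by
    have h31 : (#B' : ℝ) ≤ √((2 * C / Real.log 2) * X * w ^ 2) := Real.le_sqrt_of_sq_le h2
    rwa [Real.sqrt_mul (by positivity), Real.sqrt_mul (by positivity),
      Real.sqrt_sq (by linarith)] at h31
  have h4 : (c.natAbs : ℝ) ≤ c.natAbs * √X * w := by
    have h41 : 1 ≤ √(X : ℝ) := Real.one_le_sqrt.2 hX1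
    have h42 : (c.natAbs : ℝ) ≤ c.natAbs * √X := by nlinarith
    have h43 : c.natAbs * √X ≤ (c.natAbs : ℝ) * √X * w := by
      have : 0 ≤ (c.natAbs : ℝ) * √X := by positivity
      nlinarith
    linarith
  have h5 : (#B : ℝ) ≤ #B' + c.natAbs := by exact_mod_cast h1
  calc (#B : ℝ) ≤ √(2 * C / Real.log 2) * √X * w + c.natAbs * √X * w := by linarith
    _ = _ := by ring

end Pool.Agent.H1.WP
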