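import Mathlib

set_option autoImplicit false

/-!
Prime power divisors of `k b^k + c` (helper1), for MP_e3cfc2_nt.
-/

namespace Pool.Agent.H1.WP

open Finset Real
open ArithmeticFunction (vonMangoldt)

/-- Two indices `k`, `k + d` whose values are divisible by `q`. -/
theorem pair_dvd {b : ℕ} {c : ℤ} (hbc : IsCoprime (b : ℤ) c) {k d q : ℕ}
    (h1 : (q : ℤ) ∣ (k : ℤ) * (b : ℤ) ^ k + c)
    (h2 : (q : ℤ) ∣ ((k + d : ℕ) : ℤ) * (b : ℤ) ^ (k + d) + c) :
    (q : ℤ) ∣ ((k + d : ℕ) : ℤ) * (b : ℤ) ^ d - k := by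
  have hcop : IsCoprime (q : ℤ) ((b : ℤ) ^ k) := by
    have h : IsCoprime ((b : ℤ) ^ k) ((k : ℤ) * (b : ℤ) ^ k + c) := by
      have h0 : IsCoprime ((b : ℤ) ^ k) c := hbc.pow_left
      have h00 := h0.add_mul_left_right (k : ℤ)
      have e : c + (b : ℤ) ^ k * (k : ℤ) = (k : ℤ) * (b : ℤ) ^ k + c := by ring
      rwa [e] at h00
    exact h.symm.of_isCoprime_of_dvd_left h1
  have h3 : (q : ℤ) ∣ (b : ℤ) ^ k * (((k + d : ℕ) : ℤ) * (b : ℤ) ^ d - k) := by
    have h := dvd_sub h2 h1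
    have e : ((k + d : ℕ) : ℤ) * (b : ℤ) ^ (k + d) + c - ((k : ℤ) * (b : ℤ) ^ k + c)
        = (b : ℤ) ^ k * (((k + d : ℕ) : ℤ) * (b : ℤ) ^ d - k) := by
      rw [pow_add]; ring
    rwa [e] at h
  exact hcop.dvd_of_dvd_mul_left h3

theorem pair_pos {b k d : ℕ} (hb : 2 ≤ b) (hd : 1 ≤ d) : k < (k + d) * b ^ d := by
  have : 1 ≤ b ^ d := Nat.one_le_pow _ _ (by omega)
  nlinarith

theorem pair_dvd_nat {b : ℕ} {c : ℤ} (hb : 2 ≤ b) (hbc : IsCoprime (b : ℤ) c) {k d q : ℕ}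
    (hd : 1 ≤ d)
    (h1 : (q : ℤ) ∣ (k : ℤ) * (b : ℤ) ^ k + c)
    (h2 : (q : ℤ) ∣ ((k + d : ℕ) : ℤ) * (b : ℤ) ^ (k + d) + c) :
    q ∣ (k + d) * b ^ d - k := by
  have h := pair_dvd hbc h1 h2
  have hp := pair_pos (k := k) hb hd
  have e : (((k + d) * b ^ d - k : ℕ) : ℤ) = ((k + d : ℕ) : ℤ) * (b : ℤ) ^ d - k := by
    rw [Nat.cast_sub hp.le]; push_cast; ring
  rw [← e] at h
  exact_mod_cast h

/-- Windows of length `H`. -/
theorem window (X H : ℕ) (hH : 1 ≤ H) (S : Finset ℕ) (hS : S ⊆ Icc 1 X) :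
    #S ≤ X / H + 1 + #{p ∈ Icc 1 X ×ˢ Ico 1 H | p.1 ∈ S ∧ p.1 + p.2 ∈ S} := by
  classical
  set T := S.filter (fun k => ∃ d, 1 ≤ d ∧ d < H ∧ k + d ∈ S) with hT
  have h1 : #(S \ T) ≤ X / H + 1 := by
    have : #(S \ T) ≤ #(range (X / H + 1)) := by
      apply Finset.card_le_card_of_injOn (fun k => k / H)
      · intro k hk
        simp only [coe_sdiff, Set.mem_diff, mem_coe] at hk
        have := mem_Icc.1 (hS hk.1)
        simp only [coe_range, Set.mem_Iio]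
        exact Nat.lt_succ_of_le (Nat.div_le_div_right this.2)
      · intro k hk l hl hkl
        simp only [coe_sdiff, Set.mem_diff, mem_coe] at hk hl
        simp only at hkl
        by_contra hne
        have hk1 := Nat.div_add_mod k H
        have hl1 := Nat.div_add_mod l H
        have hk2 := Nat.mod_lt k (show 0 < H by omega)
        have hl2 := Nat.mod_lt l (show 0 < H by omega)
        rw [hkl] at hk1
        rcases Nat.lt_or_gt_of_ne hne with h | h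
        · exact hk.2 (mem_filter.2 ⟨hk.1, l - k, by omega, by omega, by
            rw [show k + (l - k) = l by omega]; exact hl.1⟩)
        · exact hl.2 (mem_filter.2 ⟨hl.1, k - l, by omega, by omega, by
            rw [show l + (k - l) = k by omega]; exact hk.1⟩)
    simpa using this
  have h2 : #T ≤ #{p ∈ Icc 1 X ×ˢ Ico 1 H | p.1 ∈ S ∧ p.1 + p.2 ∈ S} := by
    have : T ⊆ ({p ∈ Icc 1 X ×ˢ Ico 1 H | p.1 ∈ S ∧ p.1 + p.2 ∈ S}).image Prod.fst := by
      intro k hk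
      obtain ⟨hkS, d, hd1, hd2, hd3⟩ := mem_filter.1 hk
      exact mem_image.2 ⟨(k, d), mem_filter.2 ⟨mem_product.2 ⟨hS hkS, mem_Ico.2 ⟨hd1, hd2⟩⟩,
        hkS, hd3⟩, rfl⟩
    exact (card_le_card this).trans card_image_le
  have h3 : #S ≤ #(S \ T) + #T := by
    have := Finset.card_le_card (show S ⊆ (S \ T) ∪ T by intro x hx; by_cases h : x ∈ T <;> simp [h, hx])
    exact this.trans (card_union_le _ _)
  omega

/-- The weighted number of divisors up to `Z` is at most the logarithm. -/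
theorem sum_dvd_le (Z M : ℕ) (hM : M ≠ 0) :
    ∑ q ∈ Ioc 0 Z with q ∣ M, vonMangoldt q ≤ Real.log M := by
  rw [← ArithmeticFunction.vonMangoldt_sum]
  apply Finset.sum_le_sum_of_subset_of_nonneg
  · intro q hq
    rw [mem_filter] at hq
    exact Nat.mem_divisors.2 ⟨hq.2, hM⟩
  · intro _ _ _; exact ArithmeticFunction.vonMangoldt_nonneg

theorem sum_pairs (b X H Z : ℕ) (hb : 2 ≤ b) (hH : 1 ≤ H) :
    ∑ q ∈ Ioc 0 Z, vonMangoldt q *
      (#{p ∈ Icc 1 X ×ˢ Ico 1 H | q ∣ (p.1 + p.2) * b ^ p.2 - p.1} : ℝ)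
      ≤ X * H * (Real.log (X + H) + H * Real.log b) := by
  have e : ∀ q ∈ Ioc 0 Z, vonMangoldt q *
      (#{p ∈ Icc 1 X ×ˢ Ico 1 H | q ∣ (p.1 + p.2) * b ^ p.2 - p.1} : ℝ)
      = ∑ p ∈ Icc 1 X ×ˢ Ico 1 H, if q ∣ (p.1 + p.2) * b ^ p.2 - p.1 then vonMangoldt q else 0 := by
    intro q _
    rw [← Finset.sum_filter, Finset.sum_const, nsmul_eq_mul, mul_comm]
  rw [Finset.sum_congr rfl e, Finset.sum_comm]
  have h1 : ∀ p ∈ Icc 1 X ×ˢ Ico 1 H,
      (∑ q ∈ Ioc 0 Z, if q ∣ (p.1 + p.2) * b ^ p.2 - p.1 then vonMangoldt q else 0)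
        ≤ Real.log (X + H) + H * Real.log b := by
    intro p hp
    obtain ⟨hp1, hp2⟩ := mem_product.1 hp
    rw [mem_Icc] at hp1
    rw [mem_Ico] at hp2
    have hpos := pair_pos (k := p.1) hb hp2.1
    have hM : (p.1 + p.2) * b ^ p.2 - p.1 ≠ 0 := by omega
    rw [← Finset.sum_filter]
    refine (sum_dvd_le Z _ hM).trans ?_
    have hb1 : (1 : ℝ) ≤ b := by exact_mod_cast (show 1 ≤ b by omega)
    have hle : (((p.1 + p.2) * b ^ p.2 - p.1 : ℕ) : ℝ) ≤ ((X : ℝ) + H) * (b : ℝ) ^ H := by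
      have h0 : (p.1 + p.2) * b ^ p.2 - p.1 ≤ (X + H) * b ^ H := by
        refine (Nat.sub_le _ _).trans (Nat.mul_le_mul (by omega) ?_)
        exact Nat.pow_le_pow_right (by omega) hp2.2.le
      exact_mod_cast h0
    have hXH : (0 : ℝ) < (X : ℝ) + H := by
      have : (1 : ℝ) ≤ H := by exact_mod_cast hH
      have : (0 : ℝ) ≤ X := Nat.cast_nonneg _
      linarith
    calc Real.log (((p.1 + p.2) * b ^ p.2 - p.1 : ℕ) : ℝ)
        ≤ Real.log (((X : ℝ) + H) * (b : ℝ) ^ H) := by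
          apply Real.log_le_log _ hle
          exact_mod_cast Nat.pos_of_ne_zero hM
      _ = Real.log (X + H) + H * Real.log b := by
          rw [Real.log_mul hXH.ne' (by positivity), Real.log_pow]
  have hnn : 0 ≤ Real.log (X + H) + H * Real.log b := by
    have hb1 : (1 : ℝ) ≤ b := by exact_mod_cast (show 1 ≤ b by omega)
    have h1' : (1 : ℝ) ≤ (X : ℝ) + H := by
      have : (1 : ℝ) ≤ H := by exact_mod_cast hH
      have : (0 : ℝ) ≤ X := Nat.cast_nonneg _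
      linarith
    have := Real.log_nonneg h1'
    have := Real.log_nonneg hb1
    positivity
  refine (Finset.sum_le_sum h1).trans ?_
  rw [Finset.sum_const, card_product, Nat.card_Icc, Nat.card_Ico, nsmul_eq_mul]
  apply mul_le_mul_of_nonneg_right _ hnn
  have h5 : ((X + 1 - 1) * (H - 1) : ℕ) ≤ X * H := by
    apply Nat.mul_le_mul <;> omega
  exact_mod_cast h5

/-- The master inequality. -/
theorem master {b : ℕ} {c : ℤ} (hb : 2 ≤ b) (hbc : IsCoprime (b : ℤ) c) (X H Z : ℕ)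
    (hH : 1 ≤ H) :
    ∑ k ∈ Icc 1 X, ∑ q ∈ (Ioc 0 Z).filter (fun q : ℕ => (q : ℤ) ∣ (k : ℤ) * (b : ℤ) ^ k + c), vonMangoldt q
      ≤ Chebyshev.psi Z * (X / H + 1) + X * H * (Real.log (X + H) + H * Real.log b) := by
  classical
  have e : ∀ k ∈ Icc 1 X,
      ∑ q ∈ (Ioc 0 Z).filter (fun q : ℕ => (q : ℤ) ∣ (k : ℤ) * (b : ℤ) ^ k + c), vonMangoldt q
      = ∑ q ∈ Ioc 0 Z, if (q : ℤ) ∣ (k : ℤ) * (b : ℤ) ^ k + c then vonMangoldt q else 0 := by
    intro k _; rw [Finset.sum_filter]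
  rw [Finset.sum_congr rfl e, Finset.sum_comm]
  have h1 : ∀ q ∈ Ioc 0 Z,
      (∑ k ∈ Icc 1 X, if (q : ℤ) ∣ (k : ℤ) * (b : ℤ) ^ k + c then vonMangoldt q else 0)
      ≤ vonMangoldt q * ((X : ℝ) / H + 1) + vonMangoldt q *
      (#{p ∈ Icc 1 X ×ˢ Ico 1 H | q ∣ (p.1 + p.2) * b ^ p.2 - p.1} : ℝ) := by
    intro q _
    rw [← Finset.sum_filter, Finset.sum_const, nsmul_eq_mul, ← mul_add, mul_comm]
    apply mul_le_mul_of_nonneg_left _ ArithmeticFunction.vonMangoldt_nonneg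
    have hw := window X H hH ((Icc 1 X).filter (fun k : ℕ => (q : ℤ) ∣ (k : ℤ) * (b : ℤ) ^ k + c))
      (filter_subset _ _)
    have hsub : ({p ∈ Icc 1 X ×ˢ Ico 1 H |
        p.1 ∈ ((Icc 1 X).filter (fun k : ℕ => (q : ℤ) ∣ (k : ℤ) * (b : ℤ) ^ k + c)) ∧
        p.1 + p.2 ∈ ((Icc 1 X).filter (fun k : ℕ => (q : ℤ) ∣ (k : ℤ) * (b : ℤ) ^ k + c))})
        ⊆ ({p ∈ Icc 1 X ×ˢ Ico 1 H | q ∣ (p.1 + p.2) * b ^ p.2 - p.1}) := by
      intro p hp
      rw [mem_filter] at hp ⊢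
      refine ⟨hp.1, ?_⟩
      have hd := (mem_Ico.1 (mem_product.1 hp.1).2).1
      exact pair_dvd_nat hb hbc hd (mem_filter.1 hp.2.1).2 (mem_filter.1 hp.2.2).2
    have hw2 := hw.trans (Nat.add_le_add_left (card_le_card hsub) _)
    have hw3 : ((#((Icc 1 X).filter (fun k : ℕ => (q : ℤ) ∣ (k : ℤ) * (b : ℤ) ^ k + c)) : ℕ) : ℝ)
        ≤ ((X / H : ℕ) : ℝ) + 1
          + (#{p ∈ Icc 1 X ×ˢ Ico 1 H | q ∣ (p.1 + p.2) * b ^ p.2 - p.1} : ℝ) := by
      exact_mod_cast hw2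
    have hdiv : ((X / H : ℕ) : ℝ) ≤ (X : ℝ) / H := Nat.cast_div_le
    linarith
  refine (Finset.sum_le_sum h1).trans ?_
  rw [Finset.sum_add_distrib, ← Finset.sum_mul]
  apply add_le_add _ (sum_pairs b X H Z hb hH)
  apply le_of_eq
  congr 1
  rw [Chebyshev.psi, Nat.floor_natCast]

/-- Choice of the length of the windows. -/
theorem master2 {b : ℕ} {c : ℤ} (hb : 2 ≤ b) (hbc : IsCoprime (b : ℤ) c) :
    ∃ C : ℝ, 0 < C ∧ ∀ (X : ℕ) (z : ℝ), 1 ≤ X → 0 ≤ z →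
    z ^ (1 / 3 : ℝ) + Real.log X + 1 ≤ X →
    ∑ k ∈ Icc 1 X, ∑ q ∈ (Ioc 0 ⌊z⌋₊).filter (fun q : ℕ => (q : ℤ) ∣ (k : ℤ) * (b : ℤ) ^ k + c), vonMangoldt q
      ≤ C * X * (z ^ (1 / 3 : ℝ) + Real.log X + 1) ^ 2 := by
  have hb1 : (1 : ℝ) ≤ b := by exact_mod_cast (show 1 ≤ b by omega)
  have hlb : 0 ≤ Real.log b := Real.log_nonneg hb1
  refine ⟨2 * (Real.log 4 + 4) + 4 * (2 + Real.log b), ?_, ?_⟩
  · have := Real.log_nonneg (show (1 : ℝ) ≤ 4 by norm_num)
    positivity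
  intro X z hX hz hwX
  have hX1 : (1 : ℝ) ≤ X := by exact_mod_cast hX
  have hlX : 0 ≤ Real.log X := Real.log_nonneg hX1
  set y := z ^ (1 / 3 : ℝ) with hy
  have hy0 : 0 ≤ y := Real.rpow_nonneg hz _
  have hy3 : y ^ 3 = z := by
    rw [hy, ← Real.rpow_natCast, ← Real.rpow_mul hz]; norm_num
  set w := y + Real.log X + 1 with hw
  have hw1 : 1 ≤ w := by linarith
  set H := ⌈w⌉₊ with hHdef
  have hHw : w ≤ H := Nat.le_ceil w
  have hH2 : (H : ℝ) ≤ 2 * w := by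
    have := Nat.ceil_lt_add_one (show 0 ≤ w by linarith)
    linarith
  have hH1 : 1 ≤ H := by
    have : (1 : ℝ) ≤ H := hw1.trans hHw
    exact_mod_cast this
  have hH0 : (0 : ℝ) < H := by linarith
  have hm := master hb hbc X H ⌊z⌋₊ hH1
  refine hm.trans ?_
  have hpsi : Chebyshev.psi (⌊z⌋₊ : ℝ) ≤ (Real.log 4 + 4) * z := by
    rw [← Chebyshev.psi_eq_psi_coe_floor]
    exact Chebyshev.psi_le_const_mul_self hz
  have hl4 := Real.log_nonneg (show (1 : ℝ) ≤ 4 by norm_num)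
  have h1 : Chebyshev.psi (⌊z⌋₊ : ℝ) * ((X : ℝ) / H + 1)
      ≤ (2 * (Real.log 4 + 4)) * X * w ^ 2 := by
    have h11 : (X : ℝ) / H + 1 ≤ 2 * X / w := by
      have a1 : (X : ℝ) / H ≤ X / w := by
        apply div_le_div_of_nonneg_left (by linarith) (by linarith) hHw
      have a2 : 1 ≤ (X : ℝ) / w := by
        rw [le_div_iff₀ (by linarith)]; linarith
      have a3 : 2 * (X : ℝ) / w = X / w + X / w := by ring
      rw [a3]; linarith
    have h12 : z * (2 * X / w) ≤ 2 * X * w ^ 2 := by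
      rw [← hy3, mul_div_assoc', div_le_iff₀ (by linarith)]
      have : y ^ 3 ≤ w ^ 3 := pow_le_pow_left₀ hy0 (by linarith) 3
      nlinarith
    have h13 : 0 ≤ (X : ℝ) / H + 1 := by positivity
    calc Chebyshev.psi (⌊z⌋₊ : ℝ) * ((X : ℝ) / H + 1)
        ≤ ((Real.log 4 + 4) * z) * ((X : ℝ) / H + 1) := mul_le_mul_of_nonneg_right hpsi h13
      _ ≤ ((Real.log 4 + 4) * z) * (2 * X / w) := by
          apply mul_le_mul_of_nonneg_left h11 (by positivity)
      _ = (Real.log 4 + 4) * (z * (2 * X / w)) := by ring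
      _ ≤ (Real.log 4 + 4) * (2 * X * w ^ 2) := by
          apply mul_le_mul_of_nonneg_left h12 (by positivity)
      _ = _ := by ring
  have h2 : (X : ℝ) * H * (Real.log (X + H) + H * Real.log b)
      ≤ (4 * (2 + Real.log b)) * X * w ^ 2 := by
    have h21 : Real.log ((X : ℝ) + H) ≤ 2 * H := by
      have a1 : (X : ℝ) + H ≤ X * (1 + H) := by nlinarith
      have a2 : Real.log ((X : ℝ) + H) ≤ Real.log X + Real.log (1 + H) := by
        rw [← Real.log_mul (by positivity) (by positivity)]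
        exact Real.log_le_log (by positivity) a1
      have a3 : Real.log (1 + (H : ℝ)) ≤ H := by
        have := Real.log_le_sub_one_of_pos (show (0 : ℝ) < 1 + H by positivity)
        linarith
      linarith
    have h22 : Real.log ((X : ℝ) + H) + H * Real.log b ≤ (2 + Real.log b) * (2 * w) := by
      have : Real.log ((X : ℝ) + H) + H * Real.log b ≤ (2 + Real.log b) * H := by linarith
      exact this.trans (mul_le_mul_of_nonneg_left hH2 (by linarith))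
    calc (X : ℝ) * H * (Real.log (X + H) + H * Real.log b)
        ≤ (X : ℝ) * H * ((2 + Real.log b) * (2 * w)) := by
          apply mul_le_mul_of_nonneg_left h22 (by positivity)
      _ ≤ (X : ℝ) * (2 * w) * ((2 + Real.log b) * (2 * w)) := by
          apply mul_le_mul_of_nonneg_right
          · exact mul_le_mul_of_nonneg_left hH2 (by linarith)
          · have : 0 ≤ w := by linarith
            positivity
      _ = _ := by ring
  calc _ ≤ (2 * (Real.log 4 + 4)) * X * w ^ 2 + (4 * (2 + Real.log b)) * X * w ^ 2 :=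
        add_le_add h1 h2
    _ = _ := by ring

end Pool.Agent.H1.WP
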