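import Pool.Agent.H1.WP.Count
import Pool.Agent.H11.WD.Upp

set_option autoImplicit false

/-!
The uniform mean bound from close triples (`Pool.Agent.H11.WD`), and a power saving exceptional
set (helper1, helper11), for MP_e3cfc2_nt.
-/

namespace Pool.Agent.H1.WP

open Finset Real
open ArithmeticFunction (vonMangoldt)
open Pool.Agent.H11.WD (num sol)

/-- the two forms of the mean -/
theorem mean_eq {b : ℕ} {c : ℤ} (hbc : IsCoprime (b : ℤ) c) (X Z : ℕ) :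
    ∑ k ∈ Icc 1 X, ∑ q ∈ (Ioc 0 Z).filter (fun q : ℕ => (q : ℤ) ∣ (k : ℤ) * (b : ℤ) ^ k + c),
      vonMangoldt q =
    ∑ q ∈ (Icc 1 Z).filter (fun q => Nat.Coprime q b), vonMangoldt q * ((sol b c X q).card : ℝ) := by
  classical
  have e : ∀ k ∈ Icc 1 X,
      ∑ q ∈ (Ioc 0 Z).filter (fun q : ℕ => (q : ℤ) ∣ (k : ℤ) * (b : ℤ) ^ k + c), vonMangoldt q
      = ∑ q ∈ (Icc 1 Z).filter (fun q => Nat.Coprime q b),
        if q ∣ num b c k then vonMangoldt q else 0 := by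
    intro k hk
    rw [← Finset.sum_filter]
    apply Finset.sum_congr _ (fun _ _ => rfl)
    ext q
    simp only [mem_filter, mem_Ioc, mem_Icc, num]
    rw [← Int.natCast_dvd]
    constructor
    · rintro ⟨⟨h1, h2⟩, h3⟩
      exact ⟨⟨⟨by omega, h2⟩, Pool.Agent.H11.WD.cop (mem_Icc.1 hk).1 hbc (Int.natCast_dvd.1 h3)⟩, h3⟩
    · rintro ⟨⟨⟨h1, h2⟩, -⟩, h3⟩
      exact ⟨⟨by omega, h2⟩, h3⟩
  rw [Finset.sum_congr rfl e, Finset.sum_comm]
  apply Finset.sum_congr rfl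
  intro q _
  rw [← Finset.sum_filter, Finset.sum_const, nsmul_eq_mul, mul_comm]
  rfl

theorem log_cube {x : ℝ} (hx : 1 ≤ x) : Real.log x ^ 3 ≤ 27 * x := by
  have h1 : Real.log x ≤ 3 * x ^ (1 / 3 : ℝ) := by
    have := Real.log_le_rpow_div (show (0 : ℝ) ≤ x by linarith) (show (0 : ℝ) < 1 / 3 by norm_num)
    calc Real.log x ≤ x ^ (1 / 3 : ℝ) / (1 / 3) := this
      _ = _ := by ring
  have h2 : (x ^ (1 / 3 : ℝ)) ^ 3 = x := by
    rw [← Real.rpow_natCast, ← Real.rpow_mul (by linarith)]; norm_num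
  have h3 := pow_le_pow_left₀ (Real.log_nonneg hx) h1 3
  rw [mul_pow, h2] at h3
  linarith

/-- the mean for `z ≤ X ^ 2` -/
theorem tri_small {b : ℕ} {c : ℤ} (hb : 2 ≤ b) {X : ℕ} {z A y : ℝ}
    (hX : 2 ≤ X) (hz : 1 ≤ z) (hzX : z ≤ (X : ℝ) ^ 2) (hA0 : 0 ≤ A) (hA : A ^ 4 = z * X)
    (hy0 : 0 ≤ y) (hy : y ^ 3 = X * Real.log X) :
    ∑ q ∈ (Icc 1 ⌊z⌋₊).filter (fun q => Nat.Coprime q b), vonMangoldt q * ((sol b c X q).card : ℝ)
      ≤ (80 + 2 * Real.log b) * (A ^ 3 + X * y ^ 2) := by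
  have hX2 : (2 : ℝ) ≤ X := by exact_mod_cast hX
  have hX0 : (0 : ℝ) < X := by linarith
  have hb1 : (1 : ℝ) ≤ b := by exact_mod_cast (show 1 ≤ b by omega)
  have hlb : 0 ≤ Real.log b := Real.log_nonneg hb1
  set L := Real.log X with hL
  have hL1 : 0.69 ≤ L := by
    have h1 : Real.log 2 ≤ Real.log X := Real.log_le_log (by norm_num) hX2
    have h2 := Real.log_two_gt_d9
    linarith
  have hLX : L ≤ X := by
    have := Real.log_le_sub_one_of_pos hX0
    linarith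
  have hAX : A ≤ X := by
    by_contra h
    push Not at h
    have h1 : (X : ℝ) ^ 4 < A ^ 4 := pow_lt_pow_left₀ h hX0.le (by norm_num)
    rw [hA] at h1
    have h2 : z * X ≤ (X : ℝ) ^ 2 * X := mul_le_mul_of_nonneg_right hzX hX0.le
    have h3 : (X : ℝ) ^ 2 * X ≤ (X : ℝ) ^ 4 := by
      have : (X : ℝ) ^ 4 = (X : ℝ) ^ 2 * X * X := by ring
      rw [this]
      have h4 : 0 ≤ (X : ℝ) ^ 2 * X := by positivity
      nlinarith
    linarith
  have hA1 : 1 ≤ A := by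
    by_contra h
    push Not at h
    have h1 : A ^ 4 < 1 := pow_lt_one₀ hA0 h (by norm_num)
    rw [hA] at h1
    nlinarith
  have hyX : y ≤ X := by
    by_contra h
    push Not at h
    have h1 : (X : ℝ) ^ 3 < y ^ 3 := pow_lt_pow_left₀ h hX0.le (by norm_num)
    rw [hy] at h1
    have h3 : (X : ℝ) * L ≤ (X : ℝ) ^ 3 := by
      have : (X : ℝ) ^ 3 = X * (X * X) := by ring
      rw [this]
      apply mul_le_mul_of_nonneg_left _ hX0.le
      nlinarith
    linarith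
  have hy1 : 1 ≤ y := by
    by_contra h
    push Not at h
    have h1 : y ^ 3 < 1 := pow_lt_one₀ hy0 h (by norm_num)
    rw [hy] at h1
    nlinarith
  have hLy : L ≤ 4 * y := by
    by_contra h
    push Not at h
    have h1 : (4 * y) ^ 3 < L ^ 3 := pow_lt_pow_left₀ h (by positivity) (by norm_num)
    have h2 := log_cube (x := (X : ℝ)) (by linarith)
    have h3 : (4 * y) ^ 3 = 64 * (X * L) := by rw [mul_pow, hy]; norm_num
    rw [h3] at h1
    nlinarith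
  have hH : ⌊A⌋₊ ≤ X := by
    have h1 : (⌊A⌋₊ : ℝ) ≤ A := Nat.floor_le hA0
    exact_mod_cast h1.trans hAX
  have hH' : ⌊y⌋₊ ≤ X := by
    have h1 : (⌊y⌋₊ : ℝ) ≤ y := Nat.floor_le hy0
    exact_mod_cast h1.trans hyX
  have hup := Pool.Agent.H11.WD.upper (c := c) hb (show 1 ≤ X by omega) hH hH' hz
  refine hup.trans ?_
  have hHA : (⌊A⌋₊ : ℝ) ≤ A := Nat.floor_le hA0
  have hHA' : A < (⌊A⌋₊ : ℝ) + 1 := Nat.lt_floor_add_one _
  have hHy : (⌊y⌋₊ : ℝ) ≤ y := Nat.floor_le hy0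
  have hHy' : y < (⌊y⌋₊ : ℝ) + 1 := Nat.lt_floor_add_one _
  have d1 : ((X / (⌊A⌋₊ + 1) : ℕ) : ℝ) ≤ X / A := by
    have h2 : ((X / (⌊A⌋₊ + 1) : ℕ) : ℝ) ≤ (X : ℝ) / ((⌊A⌋₊ + 1 : ℕ) : ℝ) := Nat.cast_div_le
    refine h2.trans ?_
    push_cast
    exact div_le_div_of_nonneg_left hX0.le (by linarith) hHA'.le
  have d2 : ((X / (⌊y⌋₊ + 1) : ℕ) : ℝ) ≤ X / y := by
    have h2 : ((X / (⌊y⌋₊ + 1) : ℕ) : ℝ) ≤ (X : ℝ) / ((⌊y⌋₊ + 1 : ℕ) : ℝ) := Nat.cast_div_le
    refine h2.trans ?_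
    push_cast
    exact div_le_div_of_nonneg_left hX0.le (by linarith) hHy'.le
  have hA3 : 0 < A ^ 3 := by positivity
  have hXy : 0 < X * y ^ 2 := by positivity
  have e1 : z * (X / A) = A ^ 3 := by
    rw [mul_div_assoc', ← hA]
    field_simp
  have e2 : z ≤ A ^ 3 := by
    have h1 : z * X = A ^ 3 * A := by rw [← hA]; ring
    have h2 : A ^ 3 * A ≤ A ^ 3 * X := mul_le_mul_of_nonneg_left hAX hA3.le
    exact le_of_mul_le_mul_right (by linarith) hX0
  have t1 : 2 * (((X / (⌊A⌋₊ + 1) : ℕ) : ℝ) + 1) * (5.4 * z) ≤ 21.6 * A ^ 3 := by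
    have h1 : (((X / (⌊A⌋₊ + 1) : ℕ) : ℝ) + 1) * z ≤ (X / A + 1) * z :=
      mul_le_mul_of_nonneg_right (by linarith) (by linarith)
    have h2 : (X / A + 1) * z = z * (X / A) + z := by ring
    rw [h2, e1] at h1
    nlinarith
  have t2 : (⌊A⌋₊ : ℝ) ^ 2 * (L + ⌊A⌋₊ * Real.log b) ≤
      A ^ 3 * (1 + Real.log b) + 27 * (X * y ^ 2) := by
    have h1 : (⌊A⌋₊ : ℝ) ^ 2 ≤ A ^ 2 := pow_le_pow_left₀ (Nat.cast_nonneg _) hHA 2
    have h2 : L + ⌊A⌋₊ * Real.log b ≤ L + A * Real.log b := by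
      have := mul_le_mul_of_nonneg_right hHA hlb
      linarith
    have h3 : (⌊A⌋₊ : ℝ) ^ 2 * (L + ⌊A⌋₊ * Real.log b) ≤ A ^ 2 * (L + A * Real.log b) := by
      apply mul_le_mul h1 h2 _ (by positivity)
      have : 0 ≤ (⌊A⌋₊ : ℝ) * Real.log b := by positivity
      linarith
    have h4 : A ^ 2 * L ≤ A ^ 3 + 27 * (X * y ^ 2) := by
      rcases le_total L A with h | h
      · have : A ^ 2 * L ≤ A ^ 2 * A := mul_le_mul_of_nonneg_left h (by positivity)
        have e : A ^ 2 * A = A ^ 3 := by ring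
        linarith
      · have h5 : A ^ 2 * L ≤ L ^ 3 := by
          have h6 : A ^ 2 ≤ L ^ 2 := pow_le_pow_left₀ hA0 h 2
          have h7 : A ^ 2 * L ≤ L ^ 2 * L := mul_le_mul_of_nonneg_right h6 (by linarith)
          have e : L ^ 2 * L = L ^ 3 := by ring
          linarith
        have h8 := log_cube (x := (X : ℝ)) (by linarith)
        have h9 : (X : ℝ) ≤ X * y ^ 2 := by
          have : 1 ≤ y ^ 2 := one_le_pow₀ hy1
          nlinarith
        linarith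
    have e : A ^ 2 * (L + A * Real.log b) = A ^ 2 * L + A ^ 3 * Real.log b := by ring
    rw [e] at h3
    linarith
  have hlogz : Real.log z ≤ 2 * L := by
    have h1 : Real.log z ≤ Real.log ((X : ℝ) ^ 2) := Real.log_le_log (by linarith) hzX
    rw [Real.log_pow] at h1
    push_cast at h1
    exact h1
  have hlz0 : 0 ≤ Real.log z := Real.log_nonneg hz
  have e3 : X / y * (X * (2 * L)) = 2 * (X * y ^ 2) := by
    have h1 : (X : ℝ) / y * (X * (2 * L)) = 2 * X * (X * L) / y := by ring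
    rw [h1, ← hy]
    field_simp
  have e4 : (X : ℝ) * (2 * L) ≤ 2 * (X * y ^ 2) := by
    have h1 : (X : ℝ) * (2 * L) = 2 * (y ^ 2 * y) := by
      have : y ^ 2 * y = y ^ 3 := by ring
      rw [this, hy]; ring
    rw [h1]
    have : y ^ 2 * y ≤ y ^ 2 * X := mul_le_mul_of_nonneg_left hyX (by positivity)
    linarith
  have t3 : (((X / (⌊y⌋₊ + 1) : ℕ) : ℝ) + 1) * (X * Real.log z) ≤ 4 * (X * y ^ 2) := by
    have h1 : (X : ℝ) * Real.log z ≤ X * (2 * L) := mul_le_mul_of_nonneg_left hlogz hX0.le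
    have h2 : (((X / (⌊y⌋₊ + 1) : ℕ) : ℝ) + 1) * (X * Real.log z) ≤ (X / y + 1) * (X * (2 * L)) := by
      apply mul_le_mul (by linarith) h1 (by positivity) (by positivity)
    have h3 : (X / y + 1) * (X * (2 * L)) = X / y * (X * (2 * L)) + X * (2 * L) := by ring
    rw [h3, e3] at h2
    linarith
  have t4 : (X : ℝ) * ⌊y⌋₊ * (Real.log (2 * X) + ⌊y⌋₊ * Real.log b) ≤
      (8 + Real.log b) * (X * y ^ 2) := by
    have h1 : Real.log (2 * X) ≤ 2 * L := by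
      have h2 : Real.log (2 * X) ≤ Real.log ((X : ℝ) ^ 2) := by
        apply Real.log_le_log (by positivity)
        nlinarith
      rw [Real.log_pow] at h2
      push_cast at h2
      exact h2
    have h3 : Real.log (2 * X) + ⌊y⌋₊ * Real.log b ≤ (8 + Real.log b) * y := by
      have := mul_le_mul_of_nonneg_right hHy hlb
      nlinarith
    have h4 : (X : ℝ) * ⌊y⌋₊ ≤ X * y := mul_le_mul_of_nonneg_left hHy hX0.le
    have h5 : 0 ≤ Real.log (2 * X) + ⌊y⌋₊ * Real.log b := by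
      have : 0 ≤ Real.log (2 * X) := Real.log_nonneg (by linarith)
      positivity
    calc (X : ℝ) * ⌊y⌋₊ * (Real.log (2 * X) + ⌊y⌋₊ * Real.log b)
        ≤ X * y * ((8 + Real.log b) * y) := mul_le_mul h4 h3 h5 (by positivity)
      _ = _ := by ring
  have h6 : 0 ≤ Real.log b * A ^ 3 := by positivity
  have h7 : 0 ≤ Real.log b * (X * y ^ 2) := by positivity
  nlinarith

end Pool.Agent.H1.WP
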