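import Pool.Agent.H1.WP.Tri

set_option autoImplicit false

namespace Pool.Agent.H1.WP

open Finset Real
open ArithmeticFunction (vonMangoldt)
open Pool.Agent.H11.WD (num sol)

/-- The mean for all `X`, `z`. -/
theorem tri_mean {b : ℕ} {c : ℤ} (hb : 2 ≤ b) (hbc : IsCoprime (b : ℤ) c) :
    ∃ C : ℝ, 0 < C ∧ ∀ (X : ℕ) (z : ℝ), 2 ≤ X → 1 ≤ z →
    ∑ k ∈ Icc 1 X, ∑ q ∈ (Ioc 0 ⌊z⌋₊).filter
      (fun q : ℕ => (q : ℤ) ∣ (k : ℤ) * (b : ℤ) ^ k + c), vonMangoldt q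
      ≤ C * ((z * X) ^ (3 / 4 : ℝ) + (X : ℝ) ^ (5 / 3 : ℝ) * Real.log X ^ (2 / 3 : ℝ)) := by
  have hb1 : (1 : ℝ) ≤ b := by exact_mod_cast (show 1 ≤ b by omega)
  have hlb : 0 ≤ Real.log b := Real.log_nonneg hb1
  refine ⟨(80 + 2 * Real.log b) + (1 + c.natAbs + Real.log b), by positivity, ?_⟩
  intro X z hX hz
  have hX2 : (2 : ℝ) ≤ X := by exact_mod_cast hX
  have hX0 : (0 : ℝ) < X := by linarith
  have hL0 : 0 ≤ Real.log X := Real.log_nonneg (by linarith)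
  have hP : 0 ≤ (z * X) ^ (3 / 4 : ℝ) := by positivity
  have hQ : 0 ≤ (X : ℝ) ^ (5 / 3 : ℝ) * Real.log X ^ (2 / 3 : ℝ) := by positivity
  by_cases hzX : z ≤ (X : ℝ) ^ 2
  · have hA : ((z * X) ^ (1 / 4 : ℝ)) ^ 4 = z * X := by
      rw [← Real.rpow_natCast, ← Real.rpow_mul (by positivity)]; norm_num
    have hy : (((X : ℝ) * Real.log X) ^ (1 / 3 : ℝ)) ^ 3 = X * Real.log X := by
      rw [← Real.rpow_natCast, ← Real.rpow_mul (by positivity)]; norm_num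
    have h1 := tri_small (c := c) hb hX hz hzX (by positivity) hA (by positivity) hy
    rw [mean_eq hbc]
    have e1 : ((z * X) ^ (1 / 4 : ℝ)) ^ 3 = (z * X) ^ (3 / 4 : ℝ) := by
      rw [← Real.rpow_natCast, ← Real.rpow_mul (by positivity)]; norm_num
    have e2 : (X : ℝ) * (((X : ℝ) * Real.log X) ^ (1 / 3 : ℝ)) ^ 2 =
        (X : ℝ) ^ (5 / 3 : ℝ) * Real.log X ^ (2 / 3 : ℝ) := by
      rw [← Real.rpow_natCast, ← Real.rpow_mul (by positivity), Real.mul_rpow hX0.le hL0,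
        ← mul_assoc]
      have e3 : (X : ℝ) * (X : ℝ) ^ (1 / 3 * ((2 : ℕ) : ℝ)) = (X : ℝ) ^ (5 / 3 : ℝ) := by
        nth_rewrite 1 [← Real.rpow_one (X : ℝ)]
        rw [← Real.rpow_add hX0]; norm_num
      rw [e3]; norm_num
    rw [e1, e2] at h1
    refine h1.trans ?_
    apply mul_le_mul_of_nonneg_right _ (by positivity)
    have : (0 : ℝ) ≤ (c.natAbs : ℝ) := Nat.cast_nonneg _
    linarith
  · push Not at hzX
    have h1 : ∀ k ∈ Icc 1 X, ∑ q ∈ (Ioc 0 ⌊z⌋₊).filter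
        (fun q : ℕ => (q : ℤ) ∣ (k : ℤ) * (b : ℤ) ^ k + c), vonMangoldt q
        ≤ (1 + c.natAbs + Real.log b) * X := by
      intro k hk
      rw [mem_Icc] at hk
      exact (inner_le hb hbc hk.1 _).trans (val_upper hb hbc hk.1 hk.2)
    refine (Finset.sum_le_sum h1).trans ?_
    rw [Finset.sum_const, Nat.card_Icc, nsmul_eq_mul, Nat.add_sub_cancel]
    have h2 : (X : ℝ) ^ 2 ≤ (z * X) ^ (3 / 4 : ℝ) := by
      have h3 : (X : ℝ) ^ 3 ≤ z * X := by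
        have : (X : ℝ) ^ 3 = X ^ 2 * X := by ring
        rw [this]
        exact mul_le_mul_of_nonneg_right hzX.le hX0.le
      have h4 : ((X : ℝ) ^ 3) ^ (3 / 4 : ℝ) ≤ (z * X) ^ (3 / 4 : ℝ) :=
        Real.rpow_le_rpow (by positivity) h3 (by norm_num)
      refine le_trans ?_ h4
      rw [← Real.rpow_natCast, ← Real.rpow_natCast, ← Real.rpow_mul hX0.le]
      exact Real.rpow_le_rpow_of_exponent_le (by linarith) (by norm_num)
    have h5 : 0 ≤ (1 + (c.natAbs : ℝ) + Real.log b) := by positivity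
    calc (X : ℝ) * ((1 + c.natAbs + Real.log b) * X)
        = (1 + c.natAbs + Real.log b) * (X : ℝ) ^ 2 := by ring
      _ ≤ (1 + c.natAbs + Real.log b) * (z * X) ^ (3 / 4 : ℝ) :=
          mul_le_mul_of_nonneg_left h2 h5
      _ ≤ ((80 + 2 * Real.log b) + (1 + c.natAbs + Real.log b)) *
          ((z * X) ^ (3 / 4 : ℝ) + (X : ℝ) ^ (5 / 3 : ℝ) * Real.log X ^ (2 / 3 : ℝ)) := by
          apply mul_le_mul _ _ hP (by positivity)
          · linarith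
          · linarith

open Classical in
/-- from the mean to the number of `k` -/
theorem sq_count {b : ℕ} {c : ℤ} (hb : 2 ≤ b) {X : ℕ} {z M : ℝ}
    (h : ∑ k ∈ Icc 1 X, ∑ q ∈ (Ioc 0 ⌊z⌋₊).filter
      (fun q : ℕ => (q : ℤ) ∣ (k : ℤ) * (b : ℤ) ^ k + c), vonMangoldt q ≤ M) (hM : 0 ≤ M) :
    (#((Icc 1 X).filter (fun k : ℕ => ∀ q : ℕ, IsPrimePow q →
      (q : ℤ) ∣ (k : ℤ) * (b : ℤ) ^ k + c → (q : ℝ) ≤ z)) : ℝ)
      ≤ √(2 / Real.log 2 * M) + c.natAbs := by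
  have hl2 := Real.log_pos (show (1 : ℝ) < 2 by norm_num)
  set B := (Icc 1 X).filter (fun k : ℕ => ∀ q : ℕ, IsPrimePow q →
      (q : ℤ) ∣ (k : ℤ) * (b : ℤ) ^ k + c → (q : ℝ) ≤ z) with hB
  set B' := B.filter (fun k => c.natAbs < k) with hB'
  have h1 : #B ≤ #B' + c.natAbs := by
    have hsub : B ⊆ B' ∪ Icc 1 c.natAbs := by
      intro k hk
      rw [mem_union]
      by_cases hck : c.natAbs < k
      · left; exact mem_filter.2 ⟨hk, hck⟩
      · right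
        have := mem_Icc.1 (mem_filter.1 hk).1
        exact mem_Icc.2 ⟨this.1, by omega⟩
    have := (card_le_card hsub).trans (card_union_le _ _)
    rwa [Nat.card_Icc, Nat.add_sub_cancel] at this
  have h2 : (#B' : ℝ) ^ 2 ≤ 2 / Real.log 2 * M := by
    have h21 := sum_ge_card B' (fun k hk =>
      (mem_Icc.1 (mem_filter.1 (mem_filter.1 hk).1).1).1)
    have h22' : ((#B' * #B' : ℕ) : ℝ) ≤ ((2 * ∑ k ∈ B', k : ℕ) : ℝ) := Nat.cast_le.2 h21
    have h22 : (#B' : ℝ) * #B' ≤ 2 * ∑ k ∈ B', (k : ℝ) := by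
      rw [Nat.cast_mul, Nat.cast_mul, Nat.cast_sum] at h22'
      exact h22'
    have h23 : ∑ k ∈ B', (k : ℝ) * Real.log 2 ≤ M := by
      refine le_trans ?_ h
      refine le_trans (Finset.sum_le_sum (g := fun k : ℕ => ∑ q ∈ (Ioc 0 ⌊z⌋₊).filter
        (fun q : ℕ => (q : ℤ) ∣ (k : ℤ) * (b : ℤ) ^ k + c), vonMangoldt q) ?_) ?_
      · intro k hk
        have hkB := (mem_filter.1 hk).1
        exact (val_lower hb (mem_filter.1 hk).2).trans (le_inner (mem_filter.1 hkB).2)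
      · apply Finset.sum_le_sum_of_subset_of_nonneg
        · exact (filter_subset _ _).trans (filter_subset _ _)
        · intro k _ _
          exact Finset.sum_nonneg (fun _ _ => ArithmeticFunction.vonMangoldt_nonneg)
    rw [← Finset.sum_mul] at h23
    have h24 : ∑ k ∈ B', (k : ℝ) ≤ M / Real.log 2 := by
      rw [le_div_iff₀ hl2]; exact h23
    calc (#B' : ℝ) ^ 2 = (#B' : ℝ) * #B' := by ring
      _ ≤ 2 * ∑ k ∈ B', (k : ℝ) := h22
      _ ≤ 2 * (M / Real.log 2) := by linarith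
      _ = _ := by ring
  have h3 : (#B' : ℝ) ≤ √(2 / Real.log 2 * M) := Real.le_sqrt_of_sq_le h2
  have h5 : (#B : ℝ) ≤ #B' + c.natAbs := by exact_mod_cast h1
  linarith

open Classical in
/-- The number of `k` without a prime power divisor above `z`. -/
theorem tri_count {b : ℕ} {c : ℤ} (hb : 2 ≤ b) (hbc : IsCoprime (b : ℤ) c) :
    ∃ C : ℝ, 0 < C ∧ ∀ (X : ℕ) (z : ℝ), 2 ≤ X → 1 ≤ z →
    (#((Icc 1 X).filter (fun k : ℕ => ∀ q : ℕ, IsPrimePow q →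
      (q : ℤ) ∣ (k : ℤ) * (b : ℤ) ^ k + c → (q : ℝ) ≤ z)) : ℝ)
      ≤ C * ((z * X) ^ (3 / 8 : ℝ) + (X : ℝ) ^ (5 / 6 : ℝ) * Real.log X ^ (1 / 3 : ℝ)) := by
  obtain ⟨C, hC, h⟩ := tri_mean hb hbc
  have hl2 := Real.log_pos (show (1 : ℝ) < 2 by norm_num)
  refine ⟨√(2 / Real.log 2 * C) + c.natAbs, ?_, ?_⟩
  · have h1 : 0 < √(2 / Real.log 2 * C) := Real.sqrt_pos.2 (by positivity)
    have hc0 : (0 : ℝ) ≤ (c.natAbs : ℝ) := Nat.cast_nonneg _
    linarith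
  intro X z hX hz
  have hX2 : (2 : ℝ) ≤ X := by exact_mod_cast hX
  have hX0 : (0 : ℝ) < X := by linarith
  have hL0 : 0 ≤ Real.log X := Real.log_nonneg (by linarith)
  have hc0 : (0 : ℝ) ≤ (c.natAbs : ℝ) := Nat.cast_nonneg _
  have hzX : 1 ≤ z * X := by nlinarith
  set P := (z * X) ^ (3 / 4 : ℝ) with hP
  set Q := (X : ℝ) ^ (5 / 3 : ℝ) * Real.log X ^ (2 / 3 : ℝ) with hQ
  have hP0 : 0 ≤ P := by positivity
  have hQ0 : 0 ≤ Q := by positivity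
  have h1 := sq_count hb (h X z hX hz) (by positivity)
  have e1 : √P = (z * X) ^ (3 / 8 : ℝ) := by
    rw [hP, Real.sqrt_eq_rpow, ← Real.rpow_mul (by positivity)]; norm_num
  have e2 : √Q = (X : ℝ) ^ (5 / 6 : ℝ) * Real.log X ^ (1 / 3 : ℝ) := by
    rw [hQ, Real.sqrt_eq_rpow, Real.mul_rpow (by positivity) (by positivity),
      ← Real.rpow_mul hX0.le, ← Real.rpow_mul hL0]; norm_num
  have h2 : √(2 / Real.log 2 * (C * (P + Q))) ≤ √(2 / Real.log 2 * C) * (√P + √Q) := by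
    rw [← mul_assoc, Real.sqrt_mul (by positivity)]
    apply mul_le_mul_of_nonneg_left _ (Real.sqrt_nonneg _)
    rw [Real.sqrt_le_left (by positivity)]
    have h3 := Real.sq_sqrt hP0
    have h4 := Real.sq_sqrt hQ0
    have h5 : 0 ≤ √P * √Q := by positivity
    nlinarith
  rw [e1, e2] at h2
  have h6 : (c.natAbs : ℝ) ≤ c.natAbs *
      ((z * X) ^ (3 / 8 : ℝ) + (X : ℝ) ^ (5 / 6 : ℝ) * Real.log X ^ (1 / 3 : ℝ)) := by
    have h7 : 1 ≤ (z * X) ^ (3 / 8 : ℝ) := Real.one_le_rpow hzX (by norm_num)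
    have h8 : 0 ≤ (X : ℝ) ^ (5 / 6 : ℝ) * Real.log X ^ (1 / 3 : ℝ) := by positivity
    nlinarith
  refine h1.trans ?_
  rw [add_mul]
  exact add_le_add h2 h6

end Pool.Agent.H1.WP
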